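import Mathlib
import Pool.Agent.Q147.PlasticMA

/-!
# MP_d907e7_lc : under PFA no `ℵ₁`-dense subgroup of the line is plastic

`PFA` and `MA1` (Martin's axiom for `ℵ₁` dense sets) are defined in
`Pool.Agent.Helper647.FU.Defs`; `IsAleph1Dense` in `Pool.Agent.Q147.PlasticMA` and `IsPlastic` in
`Pool.Agent.Q147.Plastic`.
-/

namespace Pool.Agent.Results.MP_d907e7_lc.SubgroupsNotPlastic

open Pool.Agent.Helper647.FU (PFA MA1)
open Pool.Agent.Q147.Plastic Pool.Agent.Q147.PlasticMA MeasureTheory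

/-- Q2: under PFA no `ℵ₁`-dense subgroup of `ℝ` is plastic. Martin's axiom for `ℵ₁` dense sets is
enough, and without any axiom every dense subgroup of `ℝ` of Lebesgue outer measure zero is not
plastic. -/
theorem result :
    (PFA → ∀ H : AddSubgroup ℝ, IsAleph1Dense (H : Set ℝ) → ¬ IsPlastic H) ∧
    (MA1 → ∀ H : AddSubgroup ℝ, IsAleph1Dense (H : Set ℝ) → ¬ IsPlastic H) ∧
    ∀ H : AddSubgroup ℝ, Dense (H : Set ℝ) → volume (H : Set ℝ) = 0 → ¬ IsPlastic H :=
  ⟨fun h H hH => not_plastic (Pool.Agent.Helper647.FU.J8.MA1_of_PFA h) H hH,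
    fun h H hH => not_plastic h H hH, not_plastic_of_null⟩

end Pool.Agent.Results.MP_d907e7_lc.SubgroupsNotPlastic
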